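import Mathlib
import Pool.Agent.U46.EX9

/-!
# The noncommutative variational Hodge conjecture for `D(A ^ n) ⊠_B C`, for every family `A` of abelian
# varieties with many moduli and any family `C` of categories

Let `A → B` be ANY holomorphic family of principally polarized abelian varieties of dimension `g`
(nothing is assumed about its members) and `C → B` ANY family of admissible subcategories of derived
categories of smooth proper varieties. The topological K-theory of `C` and the homology of `A` are
trivialized (`B` is the universal covering of the base, or a chart): `C b : Coh v` is the Hodge structure
on `K_0^top(C_b) ⊗ ℚ ⊕ K_1^top(C_b) ⊗ ℚ = ℚ ^ v` (even and odd degrees; the Hodge operator is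
multiplication by `p - q` on the component of type `(p, q)`), `Z b` is the period matrix of `A_b`, and
`perPow (Z b) n` the inclusion of the homology of `A_b ^ n` in its tangent space. Suppose that through
each point of `B` there is a connected complex manifold along which the Hodge structure of `C` is
constant and `A` is holomorphic and has `D > g (g - 1) / 2` moduli, where `D` is the rank of the
Kodaira-Spencer map at some point (`HasManyModuliRelative`). For instance `C` is one fixed category, or
`B = U × S`, `A` is a family over `U` of codimension less than `g` in the moduli space of dimension
`g (g + 1) / 2`, and `C` is a family over `S`.

**Theorem.** (1) For all `n` every flat class which is a Hodge class in `K_0^top(D(A_b ^ n) ⊠ C_b) ⊗ ℚ`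
for all `b` is a sum of products `f ⊗ x`, where `f` is a combination of products of divisor classes on
all `A_b ^ n` and `x` is a flat class which is a Hodge class in `K_0^top(C_b) ⊗ ℚ` for all `b`. (No class
of `K_1^top(C_b)` contributes.)
(2) The noncommutative variational Hodge conjecture for `C → B` implies it for `D(A ^ n) ⊠_B C → B`.
For a fixed category `C` (about which nothing is assumed) it holds for `D(A ^ n) ⊠ C → B`: if a flat
class is the class of an object (with rational coefficients) at one point, it is so at all points.
(3) More generally, let `D → B` be a family of categories which is a direct factor, by kernels over `B`
and with rational coefficients (`IsFactor`), of a finite sum of families `D(A_j ^ (n j)) ⊠_B C_j` as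
above. Then the noncommutative variational Hodge conjecture for all `C_j → B` implies it for `D → B`.
(For instance all `B`-linear admissible subcategories of these, of projective bundles over them, and of
`D(X) ⊠_B C` for products `X` of symmetric powers of a curve over `B` with such Jacobians.)

The library treats families of varieties (`MP_e9c0f3_ag`); the Hodge structures are here those of the
two groups of topological K-theory of a category. The proof: the theorem on abelian varieties with
independent periods (`Pool.Agent.X311.many_periods`) describes the Hodge classes at a very general point
of each manifold, where the periods of `A` are algebraically independent over the field of the Hodge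
structure of `C`; the components of a flat class on `C` are found by algebraic operations, integrals
against products of divisor classes on `A ^ n`, with the perfect pairing of `Pool.Agent.TH504.VY`; a
product of divisor classes has even degree, so they are in `K_0^top(C)`.
-/

set_option autoImplicit false

namespace Pool.Agent.Results.MP_298761_ag.AbelianFamiliesTimesAny

open Module Pool.Agent.W437.HC Pool.Agent.TH504.VL Pool.Agent.TH504.VY Pool.Agent.TH131.GHC
  Pool.Agent.U46.EX

/-- **The noncommutative variational Hodge conjecture** for `D(A ^ n) ⊠_B C`, where `A` is any family
of abelian varieties with many moduli relative to the family `C` of categories, and for the direct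
factors of finite sums of such families. -/
theorem result {B : Type} [Nonempty B] :
    (∀ {g v : ℕ} (Z : B → Matrix (Fin g) (Fin g) ℂ) (C : B → Coh v), HasManyModuliRelative Z C →
      ∀ n : ℕ, HodgeKAreProducts (powers Z n) C ∧ VHCFromC (powers Z n) C) ∧
    ∀ {J M : Type} [Fintype J] [AddCommGroup M] [Module ℚ M] (D : CatFamily B M)
      (P : J → BoxFamily B), IsFactor D P → (∀ j, (P j).VHCofC) → Variational D.hodge D.alg :=
  ⟨fun Z C h n => ⟨hodgeK_products Z C h n, fun S => vhcK_times Z C h n S⟩,
    fun _ _ h hP => vhc_factor h hP⟩

end Pool.Agent.Results.MP_298761_ag.AbelianFamiliesTimesAny
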