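import Pool.Agent.U231.HF.VarFin

/-!
# The noncommutative variational Hodge conjecture for the products of arbitrary families with Fermat varieties

Let `f : 𝒵 → S` be **any** smooth family of projective varieties over a connected base `S`, `C` **any** `S`-linear
admissible subcategory of the category of perfect complexes on `𝒵`, and `o` a point of `S`. Let `B ≥ 1` be a bound for the
dimensions of the simple Hodge substructures **of CM type** of the rational topological K-theory `K_0 ⊕ K_1` of the **one**
category `C_o`; for instance any bound for its dimension will do, and `B = 1` if the only simple substructures of CM type are the
lines of Hodge classes. The other fibres are arbitrary. Let `X_i` be products of Fermat varieties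
`x_0 ^ N_i + ⋯ + x_{n+1} ^ N_i = 0` of the same prime degree `N_i`, and let the degrees `N_i` be different. Let `s_i` be the
number of all coordinates used for `X_i`, i.e. the sum of the numbers `n + 2` of the factors. Suppose for all `i` that
`N_i > s_i B + 1`, or only that every odd divisor `m ≤ s_i` of `N_i - 1` satisfies `m B < N_i - 1`. Let `X_L` be the product of
some of the `X_i` (each taken once).

**Theorem.** (1) Every global section `φ` of the local system of the rational topological K-theory of `perf(X_L) ⊠ C` over `S`
with a Hodge class as its value at `o` (for instance algebraic at `o`) is a sum of external products `a_1 × ⋯ × a_r × ψ` of
classes of algebraic cycles on the `X_i` and global sections `ψ` of the local system of the rational topological K-theory of `C`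
over `S` with Hodge classes as their values at `o`.

(2) **The noncommutative variational Hodge conjecture (with respect to the point `o`) holds for the family `perf(X_L) ⊠ C`
over `S` if and only if it holds for `C`.** (For `C = perf(𝒵)` this is the variational Hodge conjecture for `X_L × 𝒵` and
for `𝒵`.)

So for a given family `C` the theorem applies to all primes `N_i` with finitely many exceptions. It applies for
all dimensions of the Fermat varieties and all numbers of them if a power of `2` which divides `N_i - 1` is greater than `B`;
in particular, for `B = 1` it applies **to all odd primes `N_i`, without any condition**. For instance the noncommutative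
variational Hodge conjecture follows for `perf(X_L) ⊠ C` if `𝒵` is a family of varieties of dimension at most three, since then the
Hodge conjecture holds for all fibres of `𝒵`. The condition concerns only the fibre at `o`: the fibres at other points, where
for instance simple substructures of CM type of any dimension may occur, are arbitrary.

**The formal setting.** The framework is that of the starting files `Pool.Agent.Y121.AHS`. A `HodgeTheory` is a Weil cohomology
theory `W` with rational coefficients with a Hodge decomposition `pq` of the cohomology `HL W ℂ X` with complex coefficients,
compatible with products, pull-backs, push-forwards and cycle classes, with polarisations. We use the Mukai vector to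
identify the rational topological K-theory `K_0 ⊕ K_1` of a variety with its cohomology; the classes of the objects are the classes
of algebraic cycles (sums of classes of all codimensions). The kernel of the projection functor onto `C_s` gives a projector of the
K-theory of the fibre `𝒵_s`; its image `top s` is the K-theory of `C_s`, and a class in it is algebraic (resp. a Hodge class) if it
is so on `𝒵_s` (`IsSumOf (IsAlg …)`, `IsSumOf (IsHodge …)`). A `Family` consists of the fibres, of the subspaces `top s`
and of the sets of the transport maps of the cohomology along the paths in `S`. The kernel for `perf(X_L) ⊠ C_s` acts as the
identity tensor the kernel for `C_s`, so the K-theory of `perf(X_L) ⊠ C_s` is `H(X_L) ⊗ top s` (`productsTop`); and the transport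
maps are the maps `id ⊗ p` (`productsMaps`). This is the family `Family.times`.

The middle cohomology of a Fermat variety `X` of degree `N` and dimension `n` is, with complex coefficients, the direct sum of
the eigenspaces `V_a` of the group `μ_N ^ (n+2)`, where `a = (a_0, …, a_{n+1})` consists of residues modulo `N` different
from `0` with the sum `0` (and of the class of linear sections, with the empty multiset `a`). The Hodge type of `V_a` is
`(p, q)` with `p - q = ∑_j (2 ⟨a_j / N⟩ - 1) = (1 / N) ∑_j saw (a_j)` (up to the sign), where `saw (b) = 2 b - N` for
`0 < b < N`. If an automorphism of `ℂ` raises the roots of unity of order `N` to the power `c`, then it maps `V_a` to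
`V_{c a}`. If the multisets `a` and `-a` are equal then `V_a` is spanned by the classes of linear subspaces (Ran, Shioda). For
products of Fermat varieties of the degree `N` one takes the tensor products, and the multisets are added; if the
multiset is symmetric then the classes are algebraic by Shioda's inductive structure. This is what
`IsFermatDecomposition` says, and nothing else is assumed of the `X_i` (and that there is a zero-cycle of nonzero degree).

`HasKPieces T B Z C` says that `H(Z, ℚ)` is a direct sum of subspaces `U` which are substructures for the Hodge structure of
topological K-theory (where only `p - q` matters), and for each of them, either `U` has dimension at most `B`, or it has no pure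
element `v ≠ 0` in `U_ℂ`, or all elements of `C` have the component `0` in `U` (so for `C = top o` one takes for these `U` the
K-theory of the orthogonal complement of `C_o`). Here `v` is pure if every conjugate `σ(v)`, `σ ∈ Aut(ℂ)`, is a sum of elements of
types `(p, q)` with one value of `p - q`. The Mumford-Tate group acts on the line of a pure element by a character, so a
polarisable `U` has such elements if and only if it has a substructure of CM type.

**The proof.** Let `Z` be the fibre at `o` and `y = φ_o`, a Hodge class on `X_1 × ⋯ × X_r × Z` in `H(X_L) ⊗ top o`. Suppose that
`y` has a component different from `0` for the characters `a_i` of the `X_i`, where `a = a_1` is not symmetric. The contractions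
`v` of this component with linear forms are in `top o` with complex coefficients. Let `G` be the operator which is multiplication by
`2 ^ (p - q)` on `H ^ (p, q)`; it is a ring automorphism, commutes with pull-backs and fixes `y`. For automorphisms `t` of the
field `ℂ` the conjugates `t G t⁻¹` act on `v` by known scalars: since `y` is rational and a Hodge class, the exponent is
`- ∑_i S_i (t) / N_i`, where `S_i (t)` is the sum of the sawtooth function over the multiset `c_i (t) a_i`, and `c_i` is the
cyclotomic character modulo `N_i`. The same is true for the projections of `v` to the substructures `U` in the
decomposition of `H(Z, ℚ)`; so these are pure, and one which is different from `0` is in a substructure `U` with `dim U ≤ B`; we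
replace `v` by it. Now choose automorphisms `g` of `ℂ` with a given value of `c_1 (g)` and with `c_i (g) = 1` for `i ≠ 1`.
The vectors `g v` are again in `U_ℂ`, and two of them have different eigenvalues for some `t G t⁻¹`, unless
they have the same function `t ↦ S_1 (t g)`. So these vectors are linearly independent, and the stabilizer `H` of
the function `t ↦ S_1 (t)` in `(ℤ/N_1)ˣ` has index at most `dim U ≤ B`. The function is the convolution of the sawtooth
function with the odd part of the multiplicity function of `a`. Since the generalized Bernoulli numbers `B_{1,χ}` of the odd
characters are different from `0`, the odd part is determined by the convolution, so it is invariant under `H`. It is not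
zero, since `a` is not symmetric. So `-1` is not in `H`, the order `m` of `H` is an odd divisor of `N_1 - 1`, and the support
of `a` contains a coset of `H`, so `m ≤ s_1`. But `m B ≥ N_1 - 1`, a contradiction. So only symmetric, algebraic
characters occur.
Hence `φ_o = ∑ b_l × y_l` with algebraic classes `b_l` on `X_1`, and `y_l` is the contraction of `φ_o` with an algebraic class
`u_l`. The contractions `y_l (s)` of the `φ_s` with `u_l` are global sections with values in the K-theory of
`perf(X_2 × ⋯ × X_r) ⊠ C`, and `φ_s = ∑ b_l × y_l (s)` for all `s`, since this is so for `s = o` and `S` is connected. If `φ_o` is
algebraic, then so is `y_l (o)`; by induction the `y_l (s)` and the `φ_s` are algebraic for all `s`. The converse in (2)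
follows by taking `1 × ψ`.

helper231. The nonvanishing of the Bernoulli numbers is from the starting file `Pool.Agent.H916R2.Indep` (Mathlib has
Dirichlet's theorem on `L(1, χ)`), the automorphisms of `ℂ` with given cyclotomic characters are from
`Pool.Agent.Helper475.ExistsRingequivPow`.
-/

set_option autoImplicit false

open CategoryTheory AlgebraicGeometry

universe u

namespace Pool.Agent.Results.MP_298761_ag.FermatTimesArbitrary

open Pool.Agent.H914 Pool.Agent.Y121.AHS Pool.Agent.U231.HF

/-- **The noncommutative variational Hodge conjecture for products of arbitrary families with varieties
of Fermat type.** -/
theorem result {k : Type u} [Field k] {𝒱 : VarClass k} {ops : CycleOps 𝒱} (T : HodgeTheory ops)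
    {ι : Type} (N s : ι → ℕ) (X : ι → 𝒱.Obj) (hX : AreFermatFactors T N s X)
    {S : Type} (F : Family T.W S) (o : S) (hc : F.IsConnected o) {B : ℕ} (hB : 0 < B)
    (hZ : HasKPieces T B (F.fibre o) (F.top o)) (hN : ∀ i, IsLarge (N i) (s i) B) (L : List ι)
    (hL : L.Nodup) :
    (∀ φ, IsHodgeSection T (F.times X L) o φ → IsExtSection X F (IsHodgeSection T F o) L φ) ∧
      (NCVariational (F.times X L) o ↔ NCVariational F o) :=
  ⟨fun _ h => hodge_sections hX hB hN hc hZ hL h, variational_iff hX hB hN hc hZ hL⟩

end Pool.Agent.Results.MP_298761_ag.FermatTimesArbitrary
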