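import Pool.Agent.U228.VR.Main
import Pool.Agent.TH164.FullBig

/-!
# The noncommutative variational Hodge conjecture for all products of families of surfaces with nodes, and
# any category

Let `𝒮` be a complex variety, `S_i → 𝒮` (`i ≤ r`) families of surfaces with `b₁ = 0`, with transcendental
parts `T_i` of the cohomology (the orthogonal complements of the flat algebraic classes), and `𝒞` **any**
`𝒮`-linear admissible category. We suppose that

* at one point `b₀` the Hodge structure `T = T_1 + ... + T_r` is `Full` (its Lie algebra is
  `so(T_1) + ... + so(T_r)`) or `Big` (a condition on the Hodge numbers and the rational endomorphisms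
  which implies `Full`), and
* for each `i` there is an element of the fundamental group which acts on `T_i` as a reflection, and
  trivially on the other `T_j` and on `K_0^top(𝒞)` (`HasNodes`): for example a loop around a point of the
  parameter space at which `S_i` gets an ordinary double point while the other surfaces and `𝒞` stay
  smooth. (The spaces `T_i` are given in orthogonal bases over `ℚ` which contain the vanishing cycles.)

**Theorem.** Let `m` be arbitrary and `a 1, ..., a m ≤ r`. There is no condition on the numbers of factors.

1. The global sections of the local system `K_0^top(D(S_(a 1) × ... × S_(a m)) ⊠ 𝒞) ⊗ ℚ` over `𝒮` which are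
   Hodge classes at all points are exactly the combinations of products `α ⊗ x`, where `α` is a product of
   algebraic classes and transcendental parts of diagonals, and `x` is a global section of
   `K_0^top(𝒞) ⊗ ℚ` which is a Hodge class at all points.
2. The variational Hodge conjecture holds for `D(S_(a 1) × ... × S_(a m)) ⊠ 𝒞` **if and only if** it holds
   for `𝒞`.
3. If the classes of objects of `𝒞` are the same at all points (for example if `𝒞` is one fixed category,
   which is arbitrary) then the variational Hodge conjecture holds for `D(S_(a 1) × ... × S_(a m)) ⊠ 𝒞`.

(A global section which is algebraic at one point is a Hodge class at all points. On one fibre the Hodge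
classes on the powers of `S_i` need not be products of divisors and diagonals: there are also the
determinants of the `T_i`, and the analogue of 1 for one fibre is false.)

Proof. The Lie algebra of the pairs of operators on `T` and `K_0^top(𝒞)` which are compatible with the
section contains the Hodge operators, and it is stable under the reflections, which act trivially on
`K_0^top(𝒞)`: so it contains the difference of the Hodge operator of `T` and its conjugate by the
reflection, an operator on `T` alone. It is not zero on `T_i` (otherwise the vanishing cycle would be a
Hodge class), so the Lie algebra contains `so(T_1) + ... + so(T_r)`. New is the first fundamental theorem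
for products of orthogonal Lie algebras and one reflection for each factor, for forms in an arbitrary
number of variables (`U228/LF/Offt` for one factor, `U228/VR/Multi`): the Jucys-Murphy elements act
through the contractions, and the part which is alternating in as many variables as the dimension of
`T_i` vanishes, since an invariant form vanishes if the vanishing cycle is inserted an odd number of
times. The classes `x` are obtained as push-forwards (Hodge-Riemann relations for the span of the `α`).
-/

set_option autoImplicit false

open Finset

namespace Pool.Agent.Results.MP_298761_ag.NodalSurfaceFamilies

open Pool.Agent.W544.PG Pool.Agent.TH164.HC Pool.Agent.U228.VH Pool.Agent.U228.VR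

/-- **The noncommutative variational Hodge conjecture for all products of families of surfaces with
nodes and any category.** -/
theorem result {n r s v : ℕ} {B : Type} (F : Fam n r s v B) (b₀ : B)
    (hT : (∃ k, Full (F.T b₀) F.c k) ∨ ∃ p q, (F.T b₀).Big F.c p q) (hN : HasNodes F) :
    ∀ (m : ℕ) (a : Fin m → Fin r),
      (∀ t, IsGlobal F a t ↔ t ∈ products (algQ F.Q F.c F.d a) F.flat) ∧
      ∀ 𝒜 : Classes F, (Variational 𝒜 a ↔ 𝒜.VHC) ∧
        ((∀ b b', 𝒜.Z b = 𝒜.Z b') → Variational 𝒜 a) := by
  obtain ⟨k, hk⟩ : ∃ k, Full (F.T b₀) F.c k := by
    rcases hT with h | ⟨p, q, h⟩
    · exact h
    · exact ⟨_, full_of_big h⟩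
  have h : Nodal F b₀ := { hN with full := ⟨k, hk⟩ }
  intro m a
  refine ⟨fun t => ⟨fun ht => global_mem b₀ h ht, fun ht => products_global b₀ h ht⟩, fun 𝒜 =>
    ⟨⟨variational_conv b₀ h 𝒜 a, fun hV => variational b₀ h 𝒜 hV a⟩, fun hc => ?_⟩⟩
  refine variational b₀ h 𝒜 (fun x _ b hb b' => ?_) a
  rw [hc b' b]
  exact hb

end Pool.Agent.Results.MP_298761_ag.NodalSurfaceFamilies
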