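import Pool.Agent.U228.VH.Main
import Pool.Agent.TH164.FullBig

/-!
# The noncommutative variational Hodge conjecture for products of families of surfaces with a category

Let `𝒮` be a complex variety, `S_i → 𝒮` (`i ≤ r`) families of surfaces with `b₁ = 0`, with transcendental
parts `T_i` of the cohomology, and `𝒞` an `𝒮`-linear admissible category. We suppose that at one point `b₀`

* the Hodge structure `T = T_1 + ... + T_r` is `Full` (its Lie algebra is `so(T_1) + ... + so(T_r)`) or
  `Big` (a condition on the Hodge numbers and the rational endomorphisms which implies `Full`), and
* for each `i` the variation of Hodge structures of `𝒞` is unrelated to that of `T_i` (`Fam.Unrel`): at `b₀`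
  the Hodge structures are `Unrelated`; or `T_i` varies while `𝒞` does not (two points with the same
  Hodge structure of `𝒞` and different `T_i`, for instance if the surfaces depend on parameters on which
  `𝒞` does not depend, and then **nothing** is assumed on `𝒞`); or there is no homomorphism of Lie
  algebras which takes the Hodge operators of `𝒞` to those of `T_i`, at all points simultaneously.

**Theorem.** Let `a 1, ..., a m ≤ r`.

1. Each global section of the local system `K_0^top(D(S_(a 1) × ... × S_(a m)) ⊠ 𝒞) ⊗ ℚ` over `𝒮` which is a
   Hodge class at all points and has less than `dim T_i` factors in `T_i` is a combination of products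
   `α ⊗ x`, where `α` is a product of algebraic classes and transcendental parts of diagonals, and `x` is a
   global section of `K_0^top(𝒞) ⊗ ℚ` which is a Hodge class at all points.
2. The variational Hodge conjecture holds for `D(S_(a 1) × ... × S_(a m)) ⊠ 𝒞` and these sections **if and
   only if** it holds for `𝒞`.

(A global section which is algebraic at one point is a Hodge class at all points.)

Proof. Let `N` be the space of the operators in `so(T_1) + ... + so(T_r)` which kill the components of the
section. The Lie algebra of the pairs of operators on `T` and `V` which are compatible with the section
contains the conjugates of the Hodge operators at all points, and the operators on `T` alone in it are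
`N`; by Goursat's lemma `N` is not zero on any `T_i`, and it is stable under the conjugates of the Hodge
operator of `T` at `b₀`, so that it is everything (`U228/KP/Nt`, `U228/GP`). So the components of the
section are Hodge classes on the product of the surfaces, which are known. The intersection form is
nondegenerate on the space spanned by the classes `α` (by the Hodge-Riemann relations: the Weil
operator acts on Hodge classes by a sign, `U228/KP/Pair` and `Dual`), so that the classes `x` can be
obtained as push-forwards; the classes `α` are invariant under all isometries (`U228/KP/Orth`), so the
push-forwards of global sections are global, and push-forwards of algebraic classes are algebraic.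
-/

set_option autoImplicit false

open Finset

namespace Pool.Agent.Results.MP_298761_ag.SurfaceFamiliesTimesAny

open Pool.Agent.W544.PG Pool.Agent.TH164.HC Pool.Agent.U228.VH

/-- **The noncommutative variational Hodge conjecture for products of families of surfaces with a
category.** -/
theorem result {n r s v m : ℕ} {B : Type} (F : Fam n r s v B) (b₀ : B)
    (hT : (∃ k, Full (F.T b₀) F.c k) ∨ ∃ p q, (F.T b₀).Big F.c p q)
    (hU : ∀ i, F.Unrel b₀ i) (a : Fin m → Fin r) :
    (∀ t, F.IsSection a t → t ∈ products (algQ F.Q F.c F.d a) F.flat) ∧
    ∀ 𝒜 : Classes F, 𝒜.VHCX a ↔ 𝒜.VHC := by
  obtain ⟨k, hk⟩ : ∃ k, Full (F.T b₀) F.c k := by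
    rcases hT with h | ⟨p, q, h⟩
    · exact h
    · exact ⟨_, full_of_big h⟩
  exact ⟨fun t ht => section_mem b₀ hk hU a t ht,
    fun 𝒜 => ⟨vhc_conv b₀ hk 𝒜 a, fun h => vhc b₀ hk hU 𝒜 h a⟩⟩

end Pool.Agent.Results.MP_298761_ag.SurfaceFamiliesTimesAny
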